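import Pool.Agent.W2helper74.SOS.Stm2

/-!
# SOS conjecture, last case: pieces K1a (`Wron`) and K1b (`Hess`)  (helper9)
-/

open MvPolynomial

namespace Pool.Agent.W2helper9.SOS

open Pool.Agent.W2helper74.SOS

/-- a polynomial with vanishing derivatives is constant -/
theorem eq_C_of_pderiv {σ R : Type*} [CommRing R] [IsDomain R] [CharZero R] (A : MvPolynomial σ R)
    (h : ∀ j, pderiv j A = 0) : A = C (A.coeff 0) := by
  classical
  ext s
  rw [coeff_C]
  split_ifs with h0
  · rw [← h0]
  · have h1 : ∃ j, s j ≠ 0 := by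
      by_contra hc
      push Not at hc
      exact h0 (Finsupp.ext fun j => (hc j).symm)
    obtain ⟨j, hj⟩ := h1
    have h2 := congrArg (coeff (s - Finsupp.single j 1)) (h j)
    rw [coeff_pderiv, coeff_zero] at h2
    have h3 : s - Finsupp.single j 1 + Finsupp.single j 1 = s := by
      ext i
      simp only [Finsupp.coe_add, Finsupp.coe_tsub, Pi.add_apply, Pi.sub_apply]
      by_cases hij : j = i
      · subst hij
        rw [Finsupp.single_eq_same]
        omega
      · rw [Finsupp.single_eq_of_ne (Ne.symm hij)]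
        omega
    rw [h3] at h2
    rcases mul_eq_zero.1 h2 with h4 | h4
    · exact h4
    · exfalso
      have h5 : (((s - Finsupp.single j 1 : σ →₀ ℕ) j + 1 : ℕ) : R) = 0 := by
        push_cast
        exact h4
      exact Nat.succ_ne_zero _ (Nat.cast_eq_zero.1 h5)

theorem totalDegree_pderiv_lt {σ R : Type*} [CommRing R] (A : MvPolynomial σ R) (j : σ)
    (h : pderiv j A ≠ 0) :
    (pderiv j A).totalDegree < A.totalDegree := by
  classical
  rw [totalDegree]
  have hne : (pderiv j A).support.Nonempty := support_nonempty.2 h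
  rw [Finset.sup_lt_iff]
  · intro s hs
    have h1 : (pderiv j A).coeff s ≠ 0 := mem_support_iff.1 hs
    rw [coeff_pderiv] at h1
    have h2 : A.coeff (s + Finsupp.single j 1) ≠ 0 := fun h0 => h1 (by rw [h0, zero_mul])
    have h3 := le_totalDegree (mem_support_iff.2 h2)
    rw [Finsupp.sum_add_index' (fun _ => rfl) (fun _ _ _ => rfl), Finsupp.sum_single_index rfl]
      at h3
    omega
  · obtain ⟨s, hs⟩ := hne
    have h1 : (pderiv j A).coeff s ≠ 0 := mem_support_iff.1 hs
    rw [coeff_pderiv] at h1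
    have h2 : A.coeff (s + Finsupp.single j 1) ≠ 0 := fun h0 => h1 (by rw [h0, zero_mul])
    have h3 := le_totalDegree (mem_support_iff.2 h2)
    rw [Finsupp.sum_add_index' (fun _ => rfl) (fun _ _ _ => rfl), Finsupp.sum_single_index rfl]
      at h3
    show 0 < _
    omega

/-- a polynomial dividing its derivative has derivative zero -/
theorem pderiv_eq_zero_of_dvd {σ R : Type*} [CommRing R] [IsDomain R] (A : MvPolynomial σ R)
    (j : σ) (h : A ∣ pderiv j A) : pderiv j A = 0 := by
  by_contra hne
  obtain ⟨c, hc⟩ := h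
  have hA : A ≠ 0 := by rintro rfl; exact hne (by simp)
  have hc0 : c ≠ 0 := by rintro rfl; exact hne (by rw [hc, mul_zero])
  have h1 := totalDegree_pderiv_lt A j hne
  rw [hc, totalDegree_mul_of_isDomain hA hc0] at h1
  omega

theorem wron : Wron := by
  intro n p q h
  by_cases hq : q = 0
  · exact ⟨0, 1, Or.inr one_ne_zero, by simp [hq]⟩
  obtain ⟨a, b, g, hrel, ha, hb⟩ := UniqueFactorizationMonoid.exists_reduced_factors' p q hq
  have hg : g ≠ 0 := by rintro rfl; exact hq (by rw [← hb, zero_mul])
  have hb0 : b ≠ 0 := by rintro rfl; exact hq (by rw [← hb, mul_zero])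
  have key : ∀ i, a * pderiv i b = b * pderiv i a := by
    intro i
    have h1 := h i
    rw [← ha, ← hb, pderiv_mul, pderiv_mul] at h1
    have h2 : (g * g) * (a * pderiv i b) = (g * g) * (b * pderiv i a) := by
      linear_combination h1
    exact mul_left_cancel₀ (mul_ne_zero hg hg) h2
  have hda : ∀ i, pderiv i a = 0 := by
    intro i
    apply pderiv_eq_zero_of_dvd
    apply hrel.dvd_of_dvd_mul_left
    rw [← key i]
    exact dvd_mul_right _ _
  have hdb : ∀ i, pderiv i b = 0 := by
    intro i
    apply pderiv_eq_zero_of_dvd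
    apply hrel.symm.dvd_of_dvd_mul_left
    rw [key i]
    exact dvd_mul_right _ _
  have ea := eq_C_of_pderiv a hda
  have eb := eq_C_of_pderiv b hdb
  refine ⟨b.coeff 0, a.coeff 0, Or.inl ?_, ?_⟩
  · intro h0
    rw [h0, C_0] at eb
    exact hb0 eb
  · rw [← ea, ← eb, ← ha, ← hb]
    ring

/-- the `4 × 4` matrix with rows `v 0, v 1, v 2, w` -/
noncomputable def mat {R : Type*} (v : Fin 3 → Fin 4 → R) (w : Fin 4 → R) :
    Matrix (Fin 4) (Fin 4) R :=
  Matrix.of (Fin.snoc (α := fun _ => Fin 4 → R) v w : Fin 4 → Fin 4 → R)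

theorem mat_castSucc {R : Type*} (v : Fin 3 → Fin 4 → R) (w : Fin 4 → R) (k : Fin 3) :
    mat v w k.castSucc = v k := by
  unfold mat
  show (Fin.snoc (α := fun _ => Fin 4 → R) v w : Fin 4 → Fin 4 → R) k.castSucc = v k
  rw [Fin.snoc_castSucc]

theorem mat_last {R : Type*} (v : Fin 3 → Fin 4 → R) (w : Fin 4 → R) :
    mat v w (Fin.last 3) = w := by
  unfold mat
  show (Fin.snoc (α := fun _ => Fin 4 → R) v w : Fin 4 → Fin 4 → R) (Fin.last 3) = w
  rw [Fin.snoc_last]

/-- the signed `3 × 3` minors -/
noncomputable def mn {R : Type*} [CommRing R] (v : Fin 3 → Fin 4 → R) (j : Fin 4) : R :=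
  (-1) ^ (((Fin.last 3 : Fin 4) : ℕ) + (j : ℕ)) *
    Matrix.det (Matrix.of fun k l : Fin 3 => v k (j.succAbove l))

theorem det_mat {R : Type*} [CommRing R] (v : Fin 3 → Fin 4 → R) (w : Fin 4 → R) :
    (mat v w).det = ∑ j, w j * mn v j := by
  rw [Matrix.det_succ_row (mat v w) (Fin.last 3)]
  refine Finset.sum_congr rfl fun j _ => ?_
  have h1 : (mat v w).submatrix (Fin.last 3).succAbove j.succAbove =
      Matrix.of fun k l : Fin 3 => v k (j.succAbove l) := by
    ext k l
    rw [Matrix.submatrix_apply, Fin.succAbove_last, mat_castSucc]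
    rfl
  rw [h1, mat_last]
  unfold mn
  ring

theorem sum_row_mn {R : Type*} [CommRing R] (v : Fin 3 → Fin 4 → R) (k : Fin 3) :
    ∑ j, v k j * mn v j = 0 := by
  rw [← det_mat v (v k)]
  apply Matrix.det_zero_of_row_eq (i := k.castSucc) (j := Fin.last 3)
  · exact (Fin.castSucc_lt_last k).ne
  · rw [mat_castSucc, mat_last]

theorem fun_factor : ∀ f : Fin 3 → Fin 4, Function.Injective f →
    ∃ j : Fin 4, ∃ s : Equiv.Perm (Fin 3), ∀ l, f l = j.succAbove (s l) := by
  decide

theorem exists_mn_ne {R : Type*} [CommRing R] (v : Fin 3 → Fin 4 → R)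
    (f : Fin 3 → Fin 4) (h : Matrix.det (Matrix.of fun k l : Fin 3 => v k (f l)) ≠ 0) :
    ∃ j, mn v j ≠ 0 := by
  have hf : Function.Injective f := by
    intro a b hab
    by_contra hne
    apply h
    apply Matrix.det_zero_of_column_eq hne
    intro i
    show v i (f a) = v i (f b)
    rw [hab]
  obtain ⟨j, s, hs⟩ := fun_factor f hf
  refine ⟨j, fun h0 => h ?_⟩
  have h1 : (Matrix.of fun k l : Fin 3 => v k (f l)) =
      (Matrix.of fun k l : Fin 3 => v k (j.succAbove l)).submatrix id s := by
    ext k l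
    show v k (f l) = v k (j.succAbove (s l))
    rw [hs]
  rw [h1, Matrix.det_permute']
  unfold mn at h0
  have h2 : Matrix.det (Matrix.of fun k l : Fin 3 => v k (j.succAbove l)) = 0 := by
    have h3 : ((-1 : R) ^ (((Fin.last 3 : Fin 4) : ℕ) + (j : ℕ))) *
        (-1 : R) ^ (((Fin.last 3 : Fin 4) : ℕ) + (j : ℕ)) = 1 := by
      rw [← mul_pow]
      simp
    calc Matrix.det (Matrix.of fun k l : Fin 3 => v k (j.succAbove l))
        = ((-1 : R) ^ (((Fin.last 3 : Fin 4) : ℕ) + (j : ℕ)) *
        (-1 : R) ^ (((Fin.last 3 : Fin 4) : ℕ) + (j : ℕ))) *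
          Matrix.det (Matrix.of fun k l : Fin 3 => v k (j.succAbove l)) := by rw [h3, one_mul]
      _ = 0 := by rw [mul_assoc, h0, mul_zero]
  rw [h2, mul_zero]

/-- a vector orthogonal to the rows is proportional to the vector of minors -/
theorem prop_mn {R : Type*} [CommRing R] [IsDomain R] (v : Fin 3 → Fin 4 → R) (y : Fin 4 → R)
    (hy : ∀ k, ∑ j, v k j * y j = 0) (a b : Fin 4) (ha : mn v a ≠ 0) :
    mn v a * y b = y a * mn v b := by
  classical
  set z : Fin 4 → R := fun b => mn v a * y b - y a * mn v b with hz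
  have h0 : (mat v (Pi.single a 1)).mulVec z = 0 := by
    ext i
    refine Fin.lastCases ?_ (fun k => ?_) i
    · rw [Matrix.mulVec, mat_last]
      simp only [dotProduct, Pi.zero_apply]
      rw [Finset.sum_eq_single a]
      · rw [Pi.single_eq_same, one_mul, hz]
        ring
      · intro b _ hb
        rw [Pi.single_eq_of_ne hb, zero_mul]
      · simp
    · rw [Matrix.mulVec, mat_castSucc]
      simp only [dotProduct, Pi.zero_apply]
      have h1 := hy k
      have h2 := sum_row_mn v k
      calc ∑ j, v k j * z j = mn v a * ∑ j, v k j * y j - y a * ∑ j, v k j * mn v j := by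
            rw [Finset.mul_sum, Finset.mul_sum, ← Finset.sum_sub_distrib]
            refine Finset.sum_congr rfl fun j _ => ?_
            rw [hz]
            ring
        _ = 0 := by rw [h1, h2]; ring
  have hdet : (mat v (Pi.single a 1)).det ≠ 0 := by
    rw [det_mat, Finset.sum_eq_single a]
    · rw [Pi.single_eq_same, one_mul]
      exact ha
    · intro b _ hb
      rw [Pi.single_eq_of_ne hb, zero_mul]
    · simp
  have h1 := Matrix.eq_zero_of_mulVec_eq_zero hdet h0
  have h2 := congrFun h1 b
  rw [hz] at h2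
  exact sub_eq_zero.1 h2

theorem hess : Hess := by
  intro N p hN hp hli ⟨f, hf⟩
  by_contra hcon
  push Not at hcon
  set v : Fin 3 → Fin 4 → Pol 3 := fun l j => pderiv l (p j) with hv
  have hcon' : ∀ i k : Fin 3, ∑ j, pderiv i (pderiv k (p j)) * mn v j = 0 := by
    intro i k
    rw [← det_mat v (fun j => pderiv i (pderiv k (p j)))]
    exact hcon i k
  obtain ⟨a, ha⟩ := exists_mn_ne v f hf
  -- derivatives of the minors
  have hder : ∀ i k : Fin 3, ∑ j, v k j * pderiv i (mn v j) = 0 := by
    intro i k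
    have h1 := congrArg (pderiv i) (sum_row_mn v k)
    rw [map_sum, map_zero] at h1
    have h2 : ∑ j, pderiv i (v k j * mn v j) =
        ∑ j, pderiv i (pderiv k (p j)) * mn v j + ∑ j, v k j * pderiv i (mn v j) := by
      rw [← Finset.sum_add_distrib]
      refine Finset.sum_congr rfl fun j _ => ?_
      rw [pderiv_mul]
    rw [h2, hcon', zero_add] at h1
    exact h1
  have hprop : ∀ b, ∃ c : ℂ, mn v b = C c * mn v a := by
    intro b
    obtain ⟨s, t, hst, he⟩ := wron 3 (mn v a) (mn v b) (fun i => by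
      have := prop_mn v (fun j => pderiv i (mn v j)) (hder i) a b ha
      rw [this]
      ring)
    have ht : t ≠ 0 := by
      rintro rfl
      rw [C_0, zero_mul] at he
      rcases mul_eq_zero.1 he with h1 | h1
      · rcases hst with h2 | h2
        · exact h2 (by simpa using h1)
        · exact h2 rfl
      · exact ha h1
    refine ⟨t⁻¹ * s, ?_⟩
    rw [C_mul, mul_assoc, he, ← mul_assoc, ← C_mul, inv_mul_cancel₀ ht, C_1, one_mul]
  choose c hc using hprop
  have hca : c a = 1 := by
    have h1 := hc a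
    have h2 : (C (c a) - 1) * mn v a = 0 := by
      rw [sub_mul, one_mul, ← h1, sub_self]
    rcases mul_eq_zero.1 h2 with h3 | h3
    · have h4 : (C (c a) : Pol 3) = C 1 := by rw [C_1]; exact sub_eq_zero.1 h3
      exact C_injective _ _ h4
    · exact absurd h3 ha
  have hsum : ∀ k : Fin 3, pderiv k (∑ j, C (c j) * p j) = 0 := by
    intro k
    have h1 := sum_row_mn v k
    have h2 : mn v a * pderiv k (∑ j, C (c j) * p j) = 0 := by
      rw [map_sum, Finset.mul_sum, ← h1]
      refine Finset.sum_congr rfl fun j _ => ?_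
      rw [pderiv_C_mul, hc j]
      ring
    rcases mul_eq_zero.1 h2 with h3 | h3
    · exact absurd h3 ha
    · exact h3
  have hhom : (∑ j, C (c j) * p j).IsHomogeneous N := by
    apply IsHomogeneous.sum
    intro j _
    have := (isHomogeneous_C (Fin 3) (c j)).mul (hp j)
    rwa [zero_add] at this
  have hzero : ∑ j, C (c j) * p j = 0 := by
    have h1 := hhom.sum_X_mul_pderiv
    have h2 : ∑ i : Fin 3, X i * pderiv i (∑ j, C (c j) * p j) = 0 :=
      Finset.sum_eq_zero fun i _ => by rw [hsum i, mul_zero]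
    rw [h2] at h1
    have h3 := h1.symm
    rcases smul_eq_zero.1 h3 with h4 | h4
    · omega
    · exact h4
  rw [Fintype.linearIndependent_iff] at hli
  have h5 := hli c (by
    rw [← hzero]
    refine Finset.sum_congr rfl fun j _ => ?_
    rw [smul_eq_C_mul]) a
  rw [hca] at h5
  exact one_ne_zero h5

end Pool.Agent.W2helper9.SOS
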